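import Pool.Agent.H764.EF.TworA
import Pool.Agent.H487.EF.Stm

set_option autoImplicit false

/-!
# Project EF (helper487), S_TWOR: the half circle integral of the Riemann Xi function for large radii
-/

open Finset Complex Filter Topology Metric Set MeasureTheory

namespace Pool.Agent.H764.EF

open Pool.Agent.Helper242.KK (FT Ph)
open Pool.Agent.H477.Jen
open Pool.Agent.H477.S (Mt lt S_PER)

noncomputable section

theorem lt_eq {t : ℝ} (ht : 0 < t) :
    lt t = 1 / 2 * Real.log t - 1 / 2 * Real.log (2 * Real.pi) := lamR_re ht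

theorem lt_large (B t : ℝ) (ht : Real.exp (2 * B + Real.log (2 * Real.pi)) ≤ t) : B ≤ lt t := by
  have h0 : 0 < t := lt_of_lt_of_le (Real.exp_pos _) ht
  have h1 : 2 * B + Real.log (2 * Real.pi) ≤ Real.log t := by
    rw [Real.le_log_iff_exp_le h0]
    exact ht
  rw [lt_eq h0]
  linarith

theorem norm_exp_lamR {t : ℝ} (ht : 0 < t) (w : ℂ) :
    ‖exp (I * lamR t * w)‖ = Real.exp (-(lt t * w.im) - Real.pi / 4 * w.re) := by
  rw [norm_exp]
  congr 1
  have e : (I * lamR t * w).re = -((lamR t).re * w.im) - (lamR t).im * w.re := by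
    simp [mul_re, mul_im]
    ring
  rw [e, lamR_im ht]
  rfl

/-- the archimedean factor near the height `t` -/
theorem HR_near {t R : ℝ} (hR : 0 ≤ R) (hRt : (34 * Real.exp 68) * (1 + R) ^ 2 ≤ t) {w : ℂ}
    (hw : ‖w‖ ≤ R) (hwi : w.im ≤ 0) :
    1 / 2 * (Mt t * Real.exp (-(lt t * w.im) - R)) ≤ ‖HR (1 / 2 + I * (t + w))‖ ∧
      ‖HR (1 / 2 + I * (t + w))‖ ≤ 3 / 2 * (Mt t * Real.exp (-(lt t * w.im) + R)) := by
  have hE : (1 : ℝ) ≤ Real.exp 68 := Real.one_le_exp (by norm_num)
  have hR1 : 1 ≤ (1 + R) ^ 2 := by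
    have := pow_le_pow_left₀ zero_le_one (by linarith : (1 : ℝ) ≤ 1 + R) 2
    simpa using this
  have ht34 : 34 * (1 + R) ^ 2 ≤ t := by
    refine le_trans ?_ hRt
    have : 34 * 1 ≤ 34 * Real.exp 68 := by linarith
    exact mul_le_mul_of_nonneg_right (by linarith) (by positivity)
  have ht4 : 4 ≤ t := by linarith
  have ht0 : 0 < t := by linarith
  have hw1 : (1 + ‖w‖) ^ 2 ≤ (1 + R) ^ 2 :=
    pow_le_pow_left₀ (by positivity) (by linarith) 2
  have hw2 : ‖w‖ ^ 2 ≤ t := by
    have : ‖w‖ ^ 2 ≤ (1 + ‖w‖) ^ 2 := pow_le_pow_left₀ (norm_nonneg _) (by linarith) 2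
    linarith
  obtain ⟨θ, hθ1, hθ2⟩ := fact_R ht4 hwi hw2
  have hθ : ‖θ‖ ≤ 1 / 2 := by
    refine hθ1.trans ?_
    rw [div_le_iff₀ ht0]
    have : (17 * Real.exp 68) * (1 + ‖w‖) ^ 2 ≤ (17 * Real.exp 68) * (1 + R) ^ 2 :=
      mul_le_mul_of_nonneg_left hw1 (by positivity)
    linarith
  have hθa : ‖1 + θ‖ ≤ 3 / 2 := by
    refine (norm_add_le _ _).trans ?_
    rw [norm_one]
    linarith
  have hθb : 1 / 2 ≤ ‖1 + θ‖ := by
    have h1 := norm_sub_norm_le (1 : ℂ) (-θ)
    rw [norm_one, norm_neg, sub_neg_eq_add] at h1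
    linarith
  have hM0 : 0 ≤ Mt t := norm_nonneg _
  have hre := abs_le.1 ((abs_re_le_norm w).trans hw)
  have hpi0 := Real.pi_pos
  have hpi4 := Real.pi_le_four
  have hpr : |Real.pi / 4 * w.re| ≤ R := by
    rw [abs_mul, abs_of_nonneg (by positivity : 0 ≤ Real.pi / 4)]
    calc Real.pi / 4 * |w.re| ≤ 1 * R :=
          mul_le_mul (by linarith) ((abs_re_le_norm w).trans hw) (abs_nonneg _) zero_le_one
      _ = R := one_mul R
  have hpr' := abs_le.1 hpr
  rw [hθ2, norm_mul, norm_mul, norm_exp_lamR ht0]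
  have hMt : ‖HR (1 / 2 + I * (t : ℂ))‖ = Mt t := rfl
  rw [hMt]
  constructor
  · have h1 : Real.exp (-(lt t * w.im) - R) ≤
        Real.exp (-(lt t * w.im) - Real.pi / 4 * w.re) := Real.exp_le_exp.2 (by linarith)
    calc 1 / 2 * (Mt t * Real.exp (-(lt t * w.im) - R)) ≤
          ‖1 + θ‖ * (Mt t * Real.exp (-(lt t * w.im) - Real.pi / 4 * w.re)) :=
          mul_le_mul hθb (mul_le_mul_of_nonneg_left h1 hM0) (by positivity) (by positivity)
      _ = _ := by ring
  · have h1 : Real.exp (-(lt t * w.im) - Real.pi / 4 * w.re) ≤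
        Real.exp (-(lt t * w.im) + R) := Real.exp_le_exp.2 (by linarith)
    calc Mt t * Real.exp (-(lt t * w.im) - Real.pi / 4 * w.re) * ‖1 + θ‖ =
          ‖1 + θ‖ * (Mt t * Real.exp (-(lt t * w.im) - Real.pi / 4 * w.re)) := by ring
      _ ≤ _ := mul_le_mul hθa (mul_le_mul_of_nonneg_left h1 hM0) (by positivity) (by norm_num)

/-- pointwise bounds of the Xi function in discs of radius `R` -/
theorem xi_bounds : ∃ A0 T0 : ℝ, 0 ≤ A0 ∧ ∀ t R : ℝ, T0 ≤ t → 0 ≤ R →
    (34 * Real.exp 68) * (1 + R) ^ 2 ≤ t → ∀ w : ℂ, ‖w‖ ≤ R →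
    ‖FT Ph (t + w)‖ ≤ Mt t * Real.exp (lt t * max |w.im| (4 / 5) + R + A0) ∧
    (w.im ≤ -(4 / 5) → Mt t * Real.exp (lt t * |w.im| - R - A0) ≤ ‖FT Ph (t + w)‖) := by
  obtain ⟨A, hA1, hA⟩ := zeta_bounds (a := 13 / 10) (by norm_num)
  obtain ⟨A', hA'1, hA'⟩ := loc_R.bound (δ := 3 / 10) (by norm_num) (by norm_num)
  obtain ⟨T1, hT1⟩ := eventually_atTop.1 hA'
  obtain ⟨A0, hA0⟩ : ∃ A0 : ℝ, A0 = Real.log (2 * A) + Real.log (2 * A') + 1 := ⟨_, rfl⟩
  have hlA : 0 ≤ Real.log (2 * A) := Real.log_nonneg (by linarith)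
  have hlA' : 0 ≤ Real.log (2 * A') := Real.log_nonneg (by linarith)
  refine ⟨A0, 2 * max T1 4, by linarith, ?_⟩
  intro t R hT hR hRt
  have hE : (1 : ℝ) ≤ Real.exp 68 := Real.one_le_exp (by norm_num)
  have hR1 : 1 + R ≤ (1 + R) ^ 2 := by
    rw [sq]
    exact le_mul_of_one_le_left (by linarith) (by linarith)
  have ht34 : 34 * (1 + R) ^ 2 ≤ t := by
    refine le_trans ?_ hRt
    exact mul_le_mul_of_nonneg_right (by linarith) (by positivity)
  have ht0 : 0 < t := by linarith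
  have hRt2 : R ≤ t / 2 := by linarith
  have hM0 : 0 ≤ Mt t := norm_nonneg _
  have e2A : Real.exp (Real.log (2 * A)) = 2 * A := Real.exp_log (by linarith)
  have e2A' : Real.exp (Real.log (2 * A')) = 2 * A' := Real.exp_log (by linarith)
  -- the deep region
  have hdeep : ∀ w : ℂ, ‖w‖ ≤ R → w.im ≤ -(4 / 5) →
      ‖FT Ph (t + w)‖ ≤ Mt t * Real.exp (lt t * |w.im| + R + A0) ∧
      Mt t * Real.exp (lt t * |w.im| - R - A0) ≤ ‖FT Ph (t + w)‖ := by
    intro w hw hwi
    have hre := abs_le.1 ((abs_re_le_norm w).trans hw)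
    have s1 : (1 / 2 + I * ((t : ℂ) + w)).re = 1 / 2 - w.im := by
      simp
      ring
    have s2 : (1 / 2 + I * ((t : ℂ) + w)).im = t + w.re := by simp
    have hne : 1 / 2 + I * ((t : ℂ) + w) ≠ 1 := by
      intro h
      have h5 := congrArg im h
      rw [s2, one_im] at h5
      linarith
    rw [FT_Ph_eq rfl (by rw [s1]; linarith) hne, norm_mul]
    obtain ⟨z1, z2⟩ := hA (1 / 2 + I * ((t : ℂ) + w)) (by rw [s1]; linarith)
    obtain ⟨h1, h2⟩ := HR_near hR hRt hw (by linarith)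
    have habs : |w.im| = -w.im := abs_of_nonpos (by linarith)
    have habs2 : lt t * |w.im| = -(lt t * w.im) := by rw [habs]; ring
    rw [habs2]
    constructor
    · calc ‖HR (1 / 2 + I * (↑t + w))‖ * ‖riemannZeta (1 / 2 + I * (↑t + w))‖ ≤
            3 / 2 * (Mt t * Real.exp (-(lt t * w.im) + R)) * A :=
            mul_le_mul h2 z1 (norm_nonneg _) (by positivity)
        _ ≤ (Mt t * Real.exp (-(lt t * w.im) + R)) * (2 * A) := by
            have : 0 ≤ Mt t * Real.exp (-(lt t * w.im) + R) * A := by positivity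
            linarith
        _ = Mt t * Real.exp (-(lt t * w.im) + R + Real.log (2 * A)) := by
            rw [Real.exp_add _ (Real.log (2 * A)), e2A]; ring
        _ ≤ _ := by
            refine mul_le_mul_of_nonneg_left (Real.exp_le_exp.2 ?_) hM0
            linarith
    · calc Mt t * Real.exp (-(lt t * w.im) - R - A0) ≤
            Mt t * Real.exp (-(lt t * w.im) - R - Real.log (2 * A)) := by
            refine mul_le_mul_of_nonneg_left (Real.exp_le_exp.2 ?_) hM0
            linarith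
        _ = 1 / 2 * (Mt t * Real.exp (-(lt t * w.im) - R)) * (1 / A) := by
            rw [Real.exp_sub _ (Real.log (2 * A)), e2A]
            field_simp
        _ ≤ _ := mul_le_mul h1 z2 (by positivity) (norm_nonneg _)
  intro w hw
  refine ⟨?_, fun hwi => (hdeep w hw hwi).2⟩
  have hconj : ∀ v : ℂ, ‖FT Ph (t + (starRingEnd ℂ) v)‖ = ‖FT Ph (t + v)‖ := by
    intro v
    have : (t:ℂ) + (starRingEnd ℂ) v = (starRingEnd ℂ) (t + v) := by simp
    rw [this, loc_R.conj, norm_conj]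
  rcases le_total w.im (-(4 / 5)) with h1 | h1
  · have := (hdeep w hw h1).1
    have h2 : max |w.im| (4 / 5) = |w.im| := by
      apply max_eq_left
      rw [abs_of_nonpos (by linarith)]
      linarith
    rw [h2]
    exact this
  rcases le_total (4 / 5) w.im with h2 | h2
  · have := (hdeep ((starRingEnd ℂ) w) (by rw [norm_conj]; exact hw) (by
      rw [conj_im]; linarith)).1
    rw [hconj, conj_im, abs_neg] at this
    have h3 : max |w.im| (4 / 5) = |w.im| := by
      apply max_eq_left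
      rw [abs_of_nonneg (by linarith)]
      exact h2
    rw [h3]
    exact this
  · -- the strip
    have hre := abs_le.1 ((abs_re_le_norm w).trans hw)
    obtain ⟨t', ht'⟩ : ∃ t' : ℝ, t' = t + w.re := ⟨_, rfl⟩
    have hT1' : T1 ≤ max T1 4 := le_max_left _ _
    have h4' : 4 ≤ max T1 4 := le_max_right _ _
    have ht'1 : T1 ≤ t' := by rw [ht']; linarith [hre.1]
    have ht'0 : 0 < t' := by rw [ht']; linarith [hre.1]
    have ht'2 : t' ≤ 2 * t := by rw [ht']; linarith [hre.2]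
    have hb := hT1 t' ht'1 (I * (w.im : ℂ)) (by
      rw [norm_mul, norm_I, one_mul, norm_real, Real.norm_eq_abs]
      have : |w.im| ≤ 4 / 5 := abs_le.2 ⟨h1, h2⟩
      linarith)
    have e1 : (t' : ℂ) + I * (w.im : ℂ) = t + w := by
      rw [ht']
      push_cast
      rw [add_assoc, mul_comm I, re_add_im]
    have e2 : (I * (w.im : ℂ)).im = w.im := by simp
    rw [e1, e2] at hb
    have h3 : max |w.im| (1 / 2 + 3 / 10) = 4 / 5 := by
      rw [max_eq_right]
      · norm_num
      · have : |w.im| ≤ 4 / 5 := abs_le.2 ⟨h1, h2⟩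
        linarith
    have h3' : max |w.im| (4 / 5) = 4 / 5 := max_eq_right (abs_le.2 ⟨h1, h2⟩)
    rw [h3] at hb
    rw [h3']
    have hH := (HR_near hR hRt (w := (w.re : ℂ)) (by
      rw [norm_real, Real.norm_eq_abs]
      exact (abs_re_le_norm w).trans hw) (by simp)).2
    have e3 : (t : ℂ) + (w.re : ℂ) = (t' : ℂ) := by rw [ht']; push_cast; ring
    rw [e3, ofReal_im, mul_zero, neg_zero, zero_add] at hH
    have hl : (lamR t').re ≤ lt t + 1 := by
      have h5 : (lamR t').re = lt t' := rfl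
      rw [h5, lt_eq ht'0, lt_eq ht0]
      have h6 : Real.log t' ≤ Real.log (2 * t) := Real.log_le_log ht'0 ht'2
      rw [Real.log_mul (by norm_num) ht0.ne'] at h6
      have h7 := Real.log_two_lt_d9
      linarith
    calc ‖FT Ph (t + w)‖ ≤ A' * ‖HR (1 / 2 + I * (t' : ℂ))‖ *
          Real.exp ((lamR t').re * (4 / 5)) := hb
      _ ≤ A' * (3 / 2 * (Mt t * Real.exp R)) * Real.exp ((lt t + 1) * (4 / 5)) := by
          have hexp : Real.exp ((lamR t').re * (4 / 5)) ≤ Real.exp ((lt t + 1) * (4 / 5)) :=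
            Real.exp_le_exp.2 (by linarith)
          exact mul_le_mul (mul_le_mul_of_nonneg_left hH (by linarith)) hexp
            (Real.exp_pos _).le (by positivity)
      _ ≤ (2 * A') * (Mt t * Real.exp R) * Real.exp ((lt t + 1) * (4 / 5)) := by
          refine mul_le_mul_of_nonneg_right ?_ (Real.exp_pos _).le
          have : 0 ≤ A' * (Mt t * Real.exp R) := by positivity
          linarith
      _ = Mt t * Real.exp (Real.log (2 * A') + R + (lt t + 1) * (4 / 5)) := by
          rw [Real.exp_add _ ((lt t + 1) * (4 / 5)), Real.exp_add (Real.log (2 * A')), e2A']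
          ring
      _ ≤ _ := by
          refine mul_le_mul_of_nonneg_left (Real.exp_le_exp.2 ?_) hM0
          linarith

/-- **S_TWOR** -/
theorem twor_proof (hper : S_PER) : Pool.Agent.H487.EF.S_TWOR := by
  intro η hη
  obtain ⟨e, lam0, he, hlam0, hcore⟩ := core hper η hη
  obtain ⟨A0, T0, hA0, hX⟩ := xi_bounds
  obtain ⟨B, hB⟩ : ∃ B : ℝ, B = max lam0 (max (4 / e) (2 * A0 / e)) := ⟨_, rfl⟩
  refine ⟨max T0 (max (Real.exp (2 * B + Real.log (2 * Real.pi)))
    ((306 * Real.exp 68) ^ 2)), ?_⟩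
  intro t ht k hk1 hk2 v hv
  have hT0 : T0 ≤ t := (le_max_left _ _).trans ht
  have hB1 : B ≤ lt t := lt_large B t (((le_max_left _ _).trans (le_max_right _ _)).trans ht)
  have hT2 : (306 * Real.exp 68) ^ 2 ≤ t :=
    ((le_max_right _ _).trans (le_max_right _ _)).trans ht
  have hl1 : lam0 ≤ lt t := le_trans (by rw [hB]; exact le_max_left _ _) hB1
  have hl2 : 4 / e ≤ lt t :=
    le_trans (by rw [hB]; exact (le_max_left _ _).trans (le_max_right _ _)) hB1
  have hl3 : 2 * A0 / e ≤ lt t :=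
    le_trans (by rw [hB]; exact (le_max_right _ _).trans (le_max_right _ _)) hB1
  have hlpos : 0 < lt t := by linarith
  have hl1' : 1 ≤ lt t := by linarith
  have hk0 : (1 : ℝ) ≤ k := by linarith
  have ht0 : 0 ≤ t := le_trans (by positivity) hT2
  obtain ⟨r, hr⟩ : ∃ r : ℝ, r = k / lt t := ⟨_, rfl⟩
  have hr0 : 0 ≤ r := by rw [hr]; positivity
  have hrk : r ≤ k := by rw [hr]; exact div_le_self (by linarith) hl1'
  have hRe : 2 * r + A0 ≤ e * k := by
    rw [div_le_iff₀ he] at hl2 hl3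
    have h1 : 2 * r ≤ e / 2 * k := by
      have h2 : 2 * r * lt t = 2 * k := by rw [hr]; field_simp
      have h3 : 2 * r * 4 ≤ 2 * r * (lt t * e) := mul_le_mul_of_nonneg_left hl2 (by linarith)
      have h4 : 2 * r * (lt t * e) = 2 * k * e := by rw [← mul_assoc, h2]
      linarith
    have h5 : 2 * A0 ≤ k * e := hl3.trans (mul_le_mul_of_nonneg_right hk1 he.le)
    linarith
  have hsmall : (34 * Real.exp 68) * (1 + 2 * r) ^ 2 ≤ t := by
    have h1 : (1 + 2 * r) ^ 2 ≤ (3 * (k : ℝ)) ^ 2 :=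
      pow_le_pow_left₀ (by positivity) (by linarith) 2
    have h2 : (306 * Real.exp 68) * (k : ℝ) ^ 2 ≤ t := by
      apply le_of_sq_le_sq _ ht0
      calc ((306 * Real.exp 68) * (k : ℝ) ^ 2) ^ 2 = (306 * Real.exp 68) ^ 2 * (k : ℝ) ^ 4 := by
            ring
        _ ≤ t * t := mul_le_mul hT2 hk2 (by positivity) ht0
        _ = t ^ 2 := by ring
    calc (34 * Real.exp 68) * (1 + 2 * r) ^ 2 ≤ (34 * Real.exp 68) * (3 * (k : ℝ)) ^ 2 :=
          mul_le_mul_of_nonneg_left h1 (by positivity)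
      _ = (306 * Real.exp 68) * (k : ℝ) ^ 2 := by ring
      _ ≤ t := h2
  have hXt := hX t (2 * r) hT0 (by linarith) hsmall
  have hMt : 0 < Mt t := by
    refine norm_pos_iff.2 (HR_ne (by simp) ?_)
    intro h
    have h5 := congrArg im h
    simp at h5
    have : (0 : ℝ) < (306 * Real.exp 68) ^ 2 := by positivity
    linarith
  have hM0 := hMt.le
  rw [hr] at hXt hRe
  refine hcore (fun w : ℂ => FT Ph (t + w)) (Mt t) (lt t) k hMt hl1 hk1 ?_ ?_ ?_ v hv
  · exact loc_R.diff.comp ((differentiable_const _).add differentiable_id)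
  · intro w hw
    refine ((hXt w hw).1).trans ?_
    refine mul_le_mul_of_nonneg_left (Real.exp_le_exp.2 ?_) hM0
    linarith
  · intro w hw hwi
    refine le_trans ?_ ((hXt w hw).2 hwi)
    refine mul_le_mul_of_nonneg_left (Real.exp_le_exp.2 ?_) hM0
    linarith

end

end Pool.Agent.H764.EF
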