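import Pool.Agent.H685.S.HL

set_option autoImplicit false

/-!
# Project EF (helper487), S_TWOR, part B: half circle integrals for large radii (abstract form)
-/

open Finset Complex Filter Topology Metric Set MeasureTheory

namespace Pool.Agent.H764.EF

open Pool.Agent.H477.Jen (half)
open Pool.Agent.H477.S (S_PER)
open Pool.Agent.H685.S (hl_expI hl_phase hl_im hl_norm)

theorem core (hper : S_PER) (η' : ℝ) (hη' : 0 < η') : ∃ e lam0 : ℝ, 0 < e ∧ 1 ≤ lam0 ∧
    ∀ (f : ℂ → ℂ) (M lam : ℝ) (k : ℕ), 0 < M → lam0 ≤ lam → lam ≤ k → Differentiable ℂ f →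
    (∀ w : ℂ, ‖w‖ ≤ 2 * (k / lam) →
      ‖f w‖ ≤ M * Real.exp (lam * max |w.im| (4 / 5) + e * k)) →
    (∀ w : ℂ, ‖w‖ ≤ 2 * (k / lam) → w.im ≤ -(4 / 5) →
      M * Real.exp (lam * |w.im| - e * k) ≤ ‖f w‖) →
    ∀ v : ℂ, ‖v‖ ≤ k / lam / 16 →
    M * Real.exp (-(lam * v.im) + k - η' * k) ≤ ‖half f (-(I * ((k / lam : ℝ) : ℂ))) k v‖ ∧
    ‖half f (-(I * ((k / lam : ℝ) : ℂ))) k v‖ ≤ M * Real.exp (-(lam * v.im) + k + η' * k) := by
  obtain ⟨ρ, hρ0, hρ1, hρ3⟩ : ∃ ρ : ℝ, 0 < ρ ∧ ρ ≤ 1 / 20000 ∧ ρ ≤ η' :=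
    ⟨min (1 / 20000) η', lt_min (by norm_num) hη', min_le_left _ _, min_le_right _ _⟩
  obtain ⟨K0, hK0, hK⟩ := hper ρ hρ0 hρ1
  refine ⟨ρ ^ 2 / 20000, max K0 (max (100 / (ρ ^ 2)) (max (4 / η') 1)), by positivity,
    ((le_max_right _ _).trans (le_max_right _ _)).trans (le_max_right _ _), ?_⟩
  intro f M lam k hM hlam hk2 hfd hup hlow v hv
  have hl1 : K0 ≤ lam := (le_max_left _ _).trans hlam
  have hl2 : 100 ≤ lam * (ρ ^ 2) := by
    have := ((le_max_left _ _).trans (le_max_right _ _)).trans hlam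
    rwa [div_le_iff₀ (by positivity)] at this
  have hl3 : 4 ≤ lam * η' := by
    have := (((le_max_left _ _).trans (le_max_right _ _)).trans (le_max_right _ _)).trans hlam
    rwa [div_le_iff₀ (by positivity)] at this
  have hlam1 : 1 ≤ lam :=
    (((le_max_right _ _).trans (le_max_right _ _)).trans (le_max_right _ _)).trans hlam
  have hlam0 : 0 < lam := by linarith
  have hk0 : (0 : ℝ) < k := lt_of_lt_of_le hlam0 hk2
  have hkK : K0 ≤ k := hl1.trans hk2
  obtain ⟨r, hr⟩ : ∃ r : ℝ, r = k / lam := ⟨_, rfl⟩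
  rw [← hr] at hv hup hlow ⊢
  have hr1 : 1 ≤ r := by rw [hr, one_le_div hlam0]; exact hk2
  have hr0 : 0 < r := by linarith
  have hlr : lam * r = k := by rw [hr]; field_simp
  have hlrc : (lam : ℂ) * r = k := by
    have : ((lam * r : ℝ) : ℂ) = ((k : ℝ) : ℂ) := by rw [hlr]
    push_cast at this
    exact this
  have hMc : (M : ℂ) ≠ 0 := by exact_mod_cast hM.ne'
  have hyv := abs_le.1 ((abs_im_le_norm v).trans hv)
  obtain ⟨y, hy⟩ : ∃ y : ℝ, y = v.im := ⟨_, rfl⟩
  rw [← hy] at hyv ⊢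
  have hρs : ρ ^ 2 ≤ 1 / 20000 := by
    have : ρ ^ 2 ≤ ρ * 1 := by rw [sq]; exact mul_le_mul_of_nonneg_left (by linarith) hρ0.le
    linarith
  have hρη : ρ ^ 2 ≤ η' / 20000 := by
    have : ρ ^ 2 ≤ 1 / 20000 * η' := by
      rw [sq]; exact mul_le_mul hρ1 hρ3 hρ0.le (by norm_num)
    linarith
  obtain ⟨Wf, hWf⟩ : ∃ Wf : ℂ → ℂ, Wf = fun z => v + (-(I * (r : ℂ))) * cexp (I * z) := ⟨_, rfl⟩
  have hWim : ∀ z, (Wf z).im = y - r * (cexp (I * z)).re := by
    intro z
    rw [hWf, hy]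
    exact hl_im v z r
  have hWdiff : Differentiable ℂ Wf := by
    rw [hWf]
    fun_prop
  obtain ⟨b, hb⟩ : ∃ b : ℂ → ℂ, b = fun z => f (Wf z) * cexp (-(I * lam * Wf z)) / M := ⟨_, rfl⟩
  have hbdiff : Differentiable ℂ b := by
    rw [hb]
    have h1 : Differentiable ℂ fun z => f (Wf z) := hfd.comp hWdiff
    have h2 : Differentiable ℂ fun z => cexp (-(I * lam * Wf z)) := by fun_prop
    exact (h1.mul h2).div_const _
  have h3ρ : 3 * ρ < 1 := by linarith
  have hWn : ∀ z : ℂ, ‖cexp (I * z)‖ ≤ 15 / 8 → ‖Wf z‖ ≤ 2 * r := by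
    intro z h5
    rw [hWf]
    refine (norm_add_le _ _).trans ?_
    rw [norm_mul, norm_neg, norm_mul, norm_I, one_mul, norm_real, Real.norm_of_nonneg hr0.le]
    have := mul_le_mul_of_nonneg_left h5 hr0.le
    linarith
  have hbb : ∀ z ∈ ball (0 : ℂ) (3 * ρ), Real.exp (-(ρ ^ 2 * k / 20000)) ≤ ‖b z‖ ∧
      ‖b z‖ ≤ Real.exp (ρ ^ 2 * k / 20000) := by
    intro z hz
    rw [mem_ball_zero_iff] at hz
    have e1 := hl_expI z (by linarith)
    have e2 : |(cexp (I * z)).re - 1| ≤ 6 * ρ := by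
      have := (abs_re_le_norm (cexp (I * z) - 1)).trans e1
      simp only [sub_re, one_re] at this
      linarith
    rw [abs_le] at e2
    have e3 : (Wf z).im ≤ -(4 / 5) := by
      rw [hWim]
      have : r * (9 / 10 + 1 / 16) ≤ r * (cexp (I * z)).re :=
        mul_le_mul_of_nonneg_left (by linarith [e2.1]) hr0.le
      linarith [hyv.2]
    have e4 : ‖Wf z‖ ≤ 2 * r := by
      apply hWn
      have : cexp (I * z) = (cexp (I * z) - 1) + 1 := by ring
      rw [this]
      refine (norm_add_le _ _).trans ?_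
      rw [norm_one]
      linarith
    have e5 : |(Wf z).im| = -(Wf z).im := abs_of_nonpos (by linarith)
    have e6 := hup (Wf z) e4
    have e7 := hlow (Wf z) e4 e3
    have e8 : max |(Wf z).im| (4 / 5) = -(Wf z).im := by
      rw [e5]
      exact max_eq_left (by linarith)
    rw [e8] at e6
    rw [e5] at e7
    have e9 : ‖b z‖ = ‖f (Wf z)‖ * Real.exp (lam * (Wf z).im) / M := by
      rw [hb]
      simp only
      rw [norm_div, norm_mul, hl_norm, norm_real, Real.norm_of_nonneg hM.le]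
    rw [e9]
    constructor
    · rw [le_div_iff₀ hM]
      have h6 := mul_le_mul_of_nonneg_right e7 (Real.exp_pos (lam * (Wf z).im)).le
      refine le_trans ?_ h6
      rw [mul_assoc, ← Real.exp_add, mul_comm]
      refine mul_le_mul_of_nonneg_left (Real.exp_le_exp.2 ?_) hM.le
      linarith
    · rw [div_le_iff₀ hM]
      have h6 := mul_le_mul_of_nonneg_right e6 (Real.exp_pos (lam * (Wf z).im)).le
      refine h6.trans ?_
      rw [mul_assoc, ← Real.exp_add, mul_comm]
      refine mul_le_mul_of_nonneg_right (Real.exp_le_exp.2 ?_) hM.le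
      linarith
  obtain ⟨P, hP⟩ : ∃ P : ℂ → ℂ, P = fun z => cexp (I * z) - 1 - I * z := ⟨_, rfl⟩
  have hPdiff : Differentiable ℂ P := by
    rw [hP]
    fun_prop
  have hPb : ∀ z ∈ ball (0 : ℂ) (3 * ρ), ‖P z + z ^ 2 / 2‖ ≤ ‖z‖ ^ 3 := by
    intro z hz
    rw [mem_ball_zero_iff] at hz
    rw [hP]
    exact hl_phase z (by linarith)
  have hcore := hK k hkK P b hPdiff.differentiableOn hbdiff.differentiableOn hPb hbb
  -- the integrand
  obtain ⟨F, hF⟩ : ∃ F : ℝ → ℂ, F = fun x : ℝ => f (v + (-(I * (r : ℂ))) * cexp (I * x)) *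
      cexp (-(I * k * x)) := ⟨_, rfl⟩
  have hFc : Continuous F := by
    rw [hF]
    have := hfd.continuous
    fun_prop
  have hFi : ∀ a c : ℝ, IntervalIntegrable F volume a c := fun a c => hFc.intervalIntegrable a c
  have hF2 : ∀ x : ℝ, F x = (M * cexp (I * lam * v + k)) * (cexp (((k : ℝ) : ℂ) * P x) * b x) := by
    intro x
    rw [hF, hb, hP, hWf]
    simp only
    have e1 : cexp (I * lam * v + k) * cexp (((k : ℝ) : ℂ) * (cexp (I * x) - 1 - I * x)) *
        cexp (-(I * lam * (v + (-(I * (r : ℂ))) * cexp (I * x)))) = cexp (-(I * k * x)) := by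
      rw [← exp_add, ← exp_add]
      congr 1
      push_cast
      have hI : I * I = -1 := I_mul_I
      linear_combination (lam * r * cexp (I * x)) * hI - cexp (I * x) * hlrc
    rw [← e1]
    field_simp
  have hsplit : half f (-(I * (r : ℂ))) k v =
      (∫ x in (-(Real.pi / 2))..(-ρ), F x) + (∫ x in (-ρ)..ρ, F x) +
        ∫ x in ρ..(Real.pi / 2), F x := by
    unfold half
    rw [intervalIntegral.integral_add_adjacent_intervals (hFi _ _) (hFi _ _),
      intervalIntegral.integral_add_adjacent_intervals (hFi _ _) (hFi _ _), hF]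
  obtain ⟨A, hA⟩ : ∃ A : ℝ, A = M * Real.exp (-(lam * y) + k) := ⟨_, rfl⟩
  have hA0 : 0 < A := by rw [hA]; positivity
  have hAn : ‖(M * cexp (I * lam * v + k) : ℂ)‖ = A := by
    rw [norm_mul, norm_real, Real.norm_of_nonneg hM.le, norm_exp, hA, hy]
    congr 2
    simp
  have hmain : A * Real.exp (-(ρ ^ 2 * k / 20)) ≤ ‖∫ x in (-ρ)..ρ, F x‖ := by
    simp_rw [hF2]
    rw [intervalIntegral.integral_const_mul, norm_mul, hAn]
    exact mul_le_mul_of_nonneg_left hcore hA0.le
  -- pointwise bounds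
  have hpi := Real.pi_gt_three
  have hpi4 := Real.pi_le_four
  have hpt : ∀ (x c : ℝ), |x| ≤ Real.pi / 2 → 0 ≤ c → c ≤ ρ ^ 2 / 5 → Real.cos x ≤ 1 - c →
      ‖F x‖ ≤ A * Real.exp (ρ ^ 2 * k / 20000 - c * k) := by
    intro x c hx2 hc0 hc1 hcos1
    have hcos0 : 0 ≤ Real.cos x := by
      rw [← Real.cos_abs]
      exact Real.cos_nonneg_of_mem_Icc ⟨by linarith [abs_nonneg x], hx2⟩
    have hre : (cexp (I * (x : ℂ))).re = Real.cos x := by
      rw [mul_comm, exp_ofReal_mul_I_re]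
    have hW1 : (Wf x).im = y - r * Real.cos x := by rw [hWim, hre]
    have hW2 : ‖Wf x‖ ≤ 2 * r := by
      apply hWn
      rw [mul_comm I (x : ℂ), norm_exp_ofReal_mul_I]
      norm_num
    have hup' := hup (Wf x) hW2
    have hFx : ‖F x‖ = ‖f (Wf x)‖ := by
      rw [hF, hWf]
      simp only
      rw [norm_mul, norm_exp]
      have : (-(I * (k : ℂ) * (x : ℂ))).re = 0 := by simp
      rw [this, Real.exp_zero, mul_one]
    rw [hFx]
    refine hup'.trans ?_
    rw [hA, mul_assoc, ← Real.exp_add]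
    refine mul_le_mul_of_nonneg_left (Real.exp_le_exp.2 ?_) hM.le
    have hmax : lam * max |(Wf x).im| (4 / 5) ≤ -(lam * y) + k - c * k := by
      have h5 : max |(Wf x).im| (4 / 5) ≤ r - y - c * r := by
        have hcr : c * r ≤ 1 / 100000 * r :=
          mul_le_mul_of_nonneg_right (by linarith) hr0.le
        refine max_le ?_ ?_
        · rw [abs_le, hW1]
          constructor
          · have h12 : r * Real.cos x ≤ r * (1 - c) := mul_le_mul_of_nonneg_left hcos1 hr0.le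
            linarith
          · have h13 : 0 ≤ r * Real.cos x := mul_nonneg hr0.le hcos0
            linarith [hyv.2]
        · linarith [hyv.2]
      have h14 := mul_le_mul_of_nonneg_left h5 hlam0.le
      have h15 : lam * (r - y - c * r) = -(lam * y) + k - c * k := by
        rw [← hlr]; ring
      rwa [h15] at h14
    linarith
  have htail : ∀ x : ℝ, ρ ≤ |x| → |x| ≤ Real.pi / 2 →
      ‖F x‖ ≤ A * Real.exp (ρ ^ 2 * k / 20000 - ρ ^ 2 * k / 5) := by
    intro x hx1 hx2
    have hcos1 : Real.cos x ≤ 1 - ρ ^ 2 / 5 := by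
      have h1 := Real.cos_le_one_sub_mul_cos_sq (x := x) (by linarith)
      have h2 : ρ ^ 2 ≤ x ^ 2 := by
        rw [← sq_abs x]
        exact pow_le_pow_left₀ hρ0.le hx1 2
      have h3 : (1 : ℝ) / 5 ≤ 2 / Real.pi ^ 2 := by
        have hpi2 := Real.pi_lt_d2
        rw [div_le_div_iff₀ (by norm_num) (by positivity)]
        have q1 := pow_le_pow_left₀ Real.pi_pos.le hpi2.le 2
        norm_num at q1 ⊢
        linarith
      have h4 : 1 / 5 * ρ ^ 2 ≤ 2 / Real.pi ^ 2 * x ^ 2 :=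
        mul_le_mul h3 h2 (by positivity) (by positivity)
      linarith
    have h1 := hpt x (ρ ^ 2 / 5) hx2 (by positivity) le_rfl hcos1
    refine h1.trans (le_of_eq ?_)
    congr 2
    ring
  have ht1 : ‖∫ x in (-(Real.pi / 2))..(-ρ), F x‖ ≤
      A * Real.exp (ρ ^ 2 * k / 20000 - ρ ^ 2 * k / 5) * (Real.pi / 2) := by
    have h1 := intervalIntegral.norm_integral_le_of_norm_le_const (a := -(Real.pi / 2)) (b := -ρ)
      (f := F) (C := A * Real.exp (ρ ^ 2 * k / 20000 - ρ ^ 2 * k / 5)) (fun x hx => by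
        rw [uIoc_of_le (by linarith)] at hx
        refine htail x ?_ ?_
        · rw [abs_of_nonpos (by linarith [hx.2])]
          linarith [hx.2]
        · rw [abs_of_nonpos (by linarith [hx.2])]
          linarith [hx.1])
    refine h1.trans (mul_le_mul_of_nonneg_left ?_ (by positivity))
    rw [abs_of_nonneg (by linarith)]
    linarith
  have ht2 : ‖∫ x in ρ..(Real.pi / 2), F x‖ ≤
      A * Real.exp (ρ ^ 2 * k / 20000 - ρ ^ 2 * k / 5) * (Real.pi / 2) := by
    have h1 := intervalIntegral.norm_integral_le_of_norm_le_const (a := ρ) (b := Real.pi / 2)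
      (f := F) (C := A * Real.exp (ρ ^ 2 * k / 20000 - ρ ^ 2 * k / 5)) (fun x hx => by
        rw [uIoc_of_le (by linarith)] at hx
        refine htail x ?_ ?_
        · rw [abs_of_nonneg (by linarith [hx.1])]
          linarith [hx.1]
        · rw [abs_of_nonneg (by linarith [hx.1])]
          linarith [hx.2])
    refine h1.trans (mul_le_mul_of_nonneg_left ?_ (by positivity))
    rw [abs_of_nonneg (by linarith)]
    linarith
  -- upper bound
  have hηk : 4 ≤ η' * k := by
    have := mul_le_mul_of_nonneg_left hk2 hη'.le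
    linarith
  have hρk : ρ ^ 2 * k ≤ η' * k / 20000 := by
    have := mul_le_mul_of_nonneg_right hρη hk0.le
    linarith
  have hupper : ‖half f (-(I * (r : ℂ))) k v‖ ≤ A * Real.exp (η' * k) := by
    have h1 := intervalIntegral.norm_integral_le_of_norm_le_const (a := -(Real.pi / 2))
      (b := Real.pi / 2)
      (f := F) (C := A * Real.exp (ρ ^ 2 * k / 20000)) (fun x hx => by
        rw [uIoc_of_le (by linarith)] at hx
        have h2 := hpt x 0 (by rw [abs_le]; constructor <;> linarith [hx.1, hx.2]) le_rfl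
          (by positivity) (by rw [sub_zero]; exact Real.cos_le_one x)
        refine h2.trans (le_of_eq ?_)
        congr 2
        ring)
    have h3 : half f (-(I * (r : ℂ))) k v = ∫ x in (-(Real.pi / 2))..(Real.pi / 2), F x := by
      unfold half
      rw [hF]
    rw [h3]
    refine h1.trans ?_
    rw [mul_assoc]
    refine mul_le_mul_of_nonneg_left ?_ hA0.le
    have h4 : |Real.pi / 2 - -(Real.pi / 2)| ≤ Real.exp (η' * k / 2) := by
      rw [abs_of_nonneg (by linarith)]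
      have h5 := Real.quadratic_le_exp_of_nonneg (by linarith : 0 ≤ η' * k / 2)
      have h6 : 1 + η' * k / 2 + (η' * k / 2) ^ 2 / 2 ≥ 1 + 2 + 2 := by
        have h7 := pow_le_pow_left₀ (by norm_num) (by linarith : (2 : ℝ) ≤ η' * k / 2) 2
        norm_num at h7
        linarith
      linarith
    calc Real.exp (ρ ^ 2 * k / 20000) * |Real.pi / 2 - -(Real.pi / 2)| ≤
          Real.exp (ρ ^ 2 * k / 20000) * Real.exp (η' * k / 2) :=
          mul_le_mul_of_nonneg_left h4 (Real.exp_pos _).le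
      _ = Real.exp (ρ ^ 2 * k / 20000 + η' * k / 2) := (Real.exp_add _ _).symm
      _ ≤ Real.exp (η' * k) := Real.exp_le_exp.2 (by linarith)
  refine ⟨?_, by
    have h22 : M * Real.exp (-(lam * y) + k + η' * k) = A * Real.exp (η' * k) := by
      rw [hA, mul_assoc, ← Real.exp_add]
    rw [h22]
    exact hupper⟩
  have htot : A * Real.exp (-(ρ ^ 2 * k / 20)) -
      A * Real.exp (ρ ^ 2 * k / 20000 - ρ ^ 2 * k / 5) * Real.pi ≤
      ‖half f (-(I * (r : ℂ))) k v‖ := by
    rw [hsplit]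
    have h1 : (∫ x in (-ρ)..ρ, F x) = ((∫ x in (-(Real.pi / 2))..(-ρ), F x) +
        (∫ x in (-ρ)..ρ, F x) + ∫ x in ρ..(Real.pi / 2), F x) -
        (∫ x in (-(Real.pi / 2))..(-ρ), F x) - ∫ x in ρ..(Real.pi / 2), F x := by ring
    have h2 : ‖∫ x in (-ρ)..ρ, F x‖ ≤ ‖(∫ x in (-(Real.pi / 2))..(-ρ), F x) +
        (∫ x in (-ρ)..ρ, F x) + ∫ x in ρ..(Real.pi / 2), F x‖ +
        ‖∫ x in (-(Real.pi / 2))..(-ρ), F x‖ + ‖∫ x in ρ..(Real.pi / 2), F x‖ := by
      conv_lhs => rw [h1]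
      refine (norm_sub_le _ _).trans ?_
      have := norm_sub_le ((∫ x in (-(Real.pi / 2))..(-ρ), F x) +
        (∫ x in (-ρ)..ρ, F x) + ∫ x in ρ..(Real.pi / 2), F x)
        (∫ x in (-(Real.pi / 2))..(-ρ), F x)
      linarith
    linarith
  -- comparison
  have hQ : 100 ≤ ρ ^ 2 * k := by
    have := mul_le_mul_of_nonneg_left hk2 (by positivity : 0 ≤ ρ ^ 2)
    linarith
  obtain ⟨Q, hQd⟩ : ∃ Q : ℝ, Q = ρ ^ 2 * k := ⟨_, rfl⟩
  rw [← hQd] at hQ htot hρk
  have h20 : Real.exp (Q / 20000 - Q / 5) * Real.pi ≤ 1 / 2 * Real.exp (-(Q / 20)) := by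
    have e1 : Real.exp (Q / 20000 - Q / 5) = Real.exp (-(Q / 20)) *
        Real.exp (-(Q * (3 / 20 - 1 / 20000))) := by
      rw [← Real.exp_add]
      congr 1
      ring
    rw [e1]
    have e2 : Real.exp (-(Q * (3 / 20 - 1 / 20000))) ≤ 1 / 8 := by
      have e3 := Real.add_one_le_exp (Q * (3 / 20 - 1 / 20000))
      rw [Real.exp_neg]
      rw [inv_le_comm₀ (Real.exp_pos _) (by norm_num)]
      linarith
    have e4 : Real.exp (-(Q * (3 / 20 - 1 / 20000))) * Real.pi ≤ 1 / 2 := by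
      have := mul_le_mul e2 hpi4 (by linarith) (by norm_num)
      linarith
    have e5 := mul_le_mul_of_nonneg_left e4 (Real.exp_pos (-(Q / 20))).le
    linarith
  have h21 : A * Real.exp (-(Q / 20)) * (1 / 2) ≤ ‖half f (-(I * (r : ℂ))) k v‖ := by
    have := mul_le_mul_of_nonneg_left h20 hA0.le
    linarith
  refine le_trans ?_ h21
  have h22 : M * Real.exp (-(lam * y) + k - η' * k) = A * Real.exp (-(η' * k)) := by
    rw [hA, mul_assoc, ← Real.exp_add]
    congr 2
  rw [h22, mul_assoc]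
  refine mul_le_mul_of_nonneg_left ?_ hA0.le
  have h26 : Real.exp (-(η' * k)) ≤ Real.exp (-(Q / 20)) * Real.exp (-(19 / 20 * (η' * k))) := by
    rw [← Real.exp_add]
    refine Real.exp_le_exp.2 ?_
    linarith
  refine h26.trans (mul_le_mul_of_nonneg_left ?_ (Real.exp_pos _).le)
  have h27 : 19 / 20 ≤ 19 / 20 * (η' * k) := by linarith
  have h28 := Real.quadratic_le_exp_of_nonneg (by linarith : 0 ≤ 19 / 20 * (η' * k))
  rw [Real.exp_neg, inv_le_comm₀ (Real.exp_pos _) (by norm_num)]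
  have h29 := pow_le_pow_left₀ (by norm_num) h27 2
  norm_num at h29 ⊢
  linarith

end Pool.Agent.H764.EF
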